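import Pool.Agent.H15.HLU.Targets
import Pool.Agent.H22.HSQ.Bfo
import Pool.Agent.H22.HSQ.Pro

/-!
# Base squares of odd order (row B2O)
-/

set_option autoImplicit false

namespace Pool.Agent.H10.HLU

open Pool.Agent.H51.Homog Pool.Agent.H22.HSQ Pool.Agent.H15.HLS Pool.Agent.H15.HLU

theorem base_pow {v : ℕ} (hv : 3 ≤ v) (r : ℕ) : Base (4 * r) ((120 * v + 1) ^ r) := by
  induction r with
  | zero => exact base_zero (m := 1) one_pos
  | succ r ih => exact base_mul ih (base_four hv)

theorem pf_B2O (hB2P : T_B2P) : T_B2O := by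
  intro r v hv
  have h := hB2P (4 * r) 4 ((120 * v + 1) ^ r) (120 * v + 1) (base_pow hv r) (base_four hv)
  rw [pow_succ]
  exact h

end Pool.Agent.H10.HLU
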